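import Pool.Agent.H174.GP.StA
import Pool.Agent.H174.GP.StP
import Pool.Agent.H174.GP.StC
import Pool.Agent.H174.GP.StB

/-!
# Sup bound for `beta`
-/

open MeasureTheory ProbabilityTheory Finset

namespace Pool.Agent.H407.GP174

open Pool.Agent.H174.GP

theorem frac_mono {x y : ℝ} (hx : 0 < x) (hxy : x ≤ y) : x / (1 + x) ≤ y / (1 + y) := by
  rw [div_le_div_iff₀ (by linarith) (by linarith)]
  nlinarith

theorem geo_sum_le (r : ℝ) (hr0 : 0 ≤ r) (hr1 : r < 1) (N : ℕ) :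
    ∑ i ∈ range N, r ^ i ≤ 1 / (1 - r) := by
  rw [one_div, ← tsum_geometric_of_lt_one hr0 hr1]
  exact (summable_geometric_of_lt_one hr0 hr1).sum_le_tsum _ fun i _ => pow_nonneg hr0 i

theorem exp_sum_le (D : ℕ) (σ : ℝ) (hD : 1 ≤ D) (hσ : 0 < σ) (n t : ℕ) :
    ∑ b ∈ range (n + 1), (if D * b ≤ t then Real.exp (-(2 * σ * ((t : ℝ) - D * b))) else 0) ≤
      1 / (1 - Real.exp (-(2 * σ * D))) := by
  have hD0 : (0 : ℝ) < D := by exact_mod_cast hD
  have hr0 : 0 ≤ Real.exp (-(2 * σ * D)) := (Real.exp_pos _).le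
  have hr1 : Real.exp (-(2 * σ * D)) < 1 := by
    rw [Real.exp_lt_one_iff]
    have : 0 < 2 * σ * D := by positivity
    linarith
  refine le_trans ?_ (geo_sum_le _ hr0 hr1 (t / D + 1))
  rw [← Finset.sum_range_reflect (fun i => Real.exp (-(2 * σ * D)) ^ i) (t / D + 1),
    ← Finset.sum_filter]
  refine le_trans (Finset.sum_le_sum (g := fun b : ℕ => Real.exp (-(2 * σ * D)) ^ (t / D + 1 - 1 - b))
    fun b hb => ?_) (Finset.sum_le_sum_of_subset_of_nonneg ?_ fun b _ _ => pow_nonneg hr0 _)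
  · rw [mem_filter] at hb
    have h1 : b ≤ t / D := by
      rw [Nat.le_div_iff_mul_le hD, mul_comm]
      exact hb.2
    rw [← Real.exp_nat_mul, Nat.add_sub_cancel, Nat.cast_sub h1]
    apply Real.exp_le_exp.2
    have h2 : ((t / D : ℕ) : ℝ) * D ≤ t := by
      have := Nat.div_mul_le_self t D
      exact_mod_cast this
    have h3 : 0 < 2 * σ := by linarith
    nlinarith
  · intro b hb
    rw [mem_filter] at hb
    rw [mem_range]
    have h1 : b ≤ t / D := by
      rw [Nat.le_div_iff_mul_le hD, mul_comm]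
      exact hb.2
    omega

theorem gp_beta1 (h1 : S_bin1) : S_beta1 := by
  intro s1 s2 hs1 hs2
  obtain ⟨x0, hx0⟩ : ∃ x0 : ℝ, x0 = Real.exp (-(2 * s2)) := ⟨_, rfl⟩
  have hx00 : 0 < x0 := by rw [hx0]; exact Real.exp_pos _
  have hx01 : x0 < 1 := by
    rw [hx0, Real.exp_lt_one_iff]
    linarith
  have hp0 : 0 < x0 / (1 + x0) := by positivity
  have hp2 : x0 / (1 + x0) ≤ 1 / 2 := by
    rw [div_le_div_iff₀ (by linarith) (by norm_num)]
    linarith
  obtain ⟨C, hC, hb⟩ := h1 (x0 / (1 + x0)) hp0 hp2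
  obtain ⟨y, hy⟩ : ∃ y : ℝ, y = Real.exp (-(2 * s1)) := ⟨_, rfl⟩
  have hy1 : y < 1 := by
    rw [hy, Real.exp_lt_one_iff]
    linarith
  refine ⟨C * (2 * s2) * (1 / (1 - y)), by
    have : 0 < 1 - y := by linarith
    positivity, ?_⟩
  intro D σ hD hσ hl hu n t
  have hD0 : (0 : ℝ) < D := by exact_mod_cast hD
  have hxl : x0 ≤ Real.exp (-(2 * σ * D)) := by
    rw [hx0]
    apply Real.exp_le_exp.2
    linarith
  have hxu : Real.exp (-(2 * σ * D)) ≤ y := by
    rw [hy]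
    apply Real.exp_le_exp.2
    linarith
  have hx1 : Real.exp (-(2 * σ * D)) < 1 := by linarith
  have hxp := Real.exp_pos (-(2 * σ * D))
  have hpl : x0 / (1 + x0) ≤ pD D σ := frac_mono hx00 hxl
  have hpu : pD D σ ≤ 1 / 2 := by
    unfold pD
    rw [div_le_div_iff₀ (by linarith) (by norm_num)]
    linarith
  have hbn : ∀ b, bn n (pD D σ) b ≤ C / Real.sqrt ((n : ℝ) + 1) := fun b =>
    hb (pD D σ) n b hpl (by linarith)
  have hsq : 0 < Real.sqrt ((n : ℝ) + 1) := Real.sqrt_pos.2 (by positivity)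
  have hr1 : 0 ≤ 1 - Real.exp (-(2 * σ)) := by
    have : Real.exp (-(2 * σ)) ≤ 1 := Real.exp_le_one_iff.2 (by linarith)
    linarith
  have hr2 : 1 - Real.exp (-(2 * σ)) ≤ 2 * s2 / D := by
    have e1 := Real.add_one_le_exp (-(2 * σ))
    have e2 : 2 * σ ≤ 2 * s2 / D := by
      rw [le_div_iff₀ hD0]
      linarith
    linarith
  have key : Pool.Agent.H174.GP.beta D σ n t ≤ C / Real.sqrt ((n : ℝ) + 1) * (1 - Real.exp (-(2 * σ))) *
      ∑ b ∈ range (n + 1), (if D * b ≤ t then Real.exp (-(2 * σ * ((t : ℝ) - D * b))) else 0) := by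
    unfold Pool.Agent.H174.GP.beta
    rw [Finset.mul_sum]
    refine Finset.sum_le_sum fun b _ => ?_
    by_cases hbt : D * b ≤ t
    · rw [if_pos hbt, if_pos hbt, mul_assoc (C / Real.sqrt ((n : ℝ) + 1))]
      exact mul_le_mul_of_nonneg_right (hbn b) (mul_nonneg hr1 (Real.exp_pos _).le)
    · rw [if_neg hbt, if_neg hbt, mul_zero]
  have h2 := exp_sum_le D σ hD hσ n t
  have h3 : 1 / (1 - Real.exp (-(2 * σ * D))) ≤ 1 / (1 - y) :=
    one_div_le_one_div_of_le (by linarith) (by linarith)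
  have h4 : 0 ≤ 1 / (1 - y) := by
    have : 0 < 1 - y := by linarith
    positivity
  have h5 : 0 ≤ ∑ b ∈ range (n + 1),
      (if D * b ≤ t then Real.exp (-(2 * σ * ((t : ℝ) - D * b))) else 0) := by
    refine Finset.sum_nonneg fun b _ => ?_
    split_ifs
    · exact (Real.exp_pos _).le
    · exact le_rfl
  refine key.trans ?_
  calc C / Real.sqrt ((n : ℝ) + 1) * (1 - Real.exp (-(2 * σ))) *
      ∑ b ∈ range (n + 1), (if D * b ≤ t then Real.exp (-(2 * σ * ((t : ℝ) - D * b))) else 0)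
      ≤ C / Real.sqrt ((n : ℝ) + 1) * (2 * s2 / D) * (1 / (1 - y)) := by
        refine mul_le_mul ?_ (h2.trans h3) h5 (by positivity)
        exact mul_le_mul_of_nonneg_left hr2 (by positivity)
    _ = C * (2 * s2) * (1 / (1 - y)) / (D * Real.sqrt ((n : ℝ) + 1)) := by
        field_simp

end Pool.Agent.H407.GP174
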