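import Pool.Agent.H174.GP.StA
import Pool.Agent.H174.GP.StP
import Pool.Agent.H174.GP.StC

/-!
# Chebyshev without symmetry
-/

open MeasureTheory ProbabilityTheory Finset

namespace Pool.Agent.H407.GP174

open Pool.Agent.H174.GP

theorem mp_eval (j : ℕ) : MeasurePreserving (fun ω : ℕ → ℝ => ω j) PP lap := by
  unfold PP
  exact measurePreserving_eval_infinitePi (fun _ : ℕ => lap) j

theorem gp_var2 : S_var2 := by
  intro J ψ t ht hm hi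
  have hX : ∀ j ∈ J, MemLp (fun ω : ℕ → ℝ => ψ j (ω j)) 2 PP := by
    intro j hj
    have h1 : MemLp (ψ j) 2 lap :=
      (memLp_two_iff_integrable_sq (hm j hj).aestronglyMeasurable).2 (hi j hj)
    exact h1.comp_measurePreserving (mp_eval j)
  have hind : Set.Pairwise (J : Set ℕ) fun i j =>
      IndepFun (fun ω : ℕ → ℝ => ψ i (ω i)) (fun ω : ℕ → ℝ => ψ j (ω j)) PP := by
    intro i hi' j hj' hij
    have h1 : iIndepFun (fun (j : ℕ) (ω : ℕ → ℝ) => ω j) PP := by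
      unfold PP
      exact iIndepFun_infinitePi (P := fun _ : ℕ => lap) (X := fun _ x => x)
        (fun _ => measurable_id)
    have h2 := h1.indepFun hij
    exact h2.comp (hm i (by exact_mod_cast hi')) (hm j (by exact_mod_cast hj'))
  have hsum : MemLp (∑ j ∈ J, fun ω : ℕ → ℝ => ψ j (ω j)) 2 PP := memLp_finsetSum' _ hX
  have hE : ∀ j ∈ J, ∫ ω, ψ j (ω j) ∂PP = ∫ x, ψ j x ∂lap := by
    intro j hj
    have h1 := integral_map (μ := PP) (φ := fun ω : ℕ → ℝ => ω j) (mp_eval j).measurable.aemeasurable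
      (f := ψ j) (hm j hj).aestronglyMeasurable
    rw [(mp_eval j).map_eq] at h1
    exact h1.symm
  have hE2 : ∀ j ∈ J, ∫ ω, (ψ j (ω j)) ^ 2 ∂PP = ∫ x, (ψ j x) ^ 2 ∂lap := by
    intro j hj
    have h1 := integral_map (μ := PP) (φ := fun ω : ℕ → ℝ => ω j) (mp_eval j).measurable.aemeasurable
      (f := fun x => (ψ j x) ^ 2) ((hm j hj).pow_const 2).aestronglyMeasurable
    rw [(mp_eval j).map_eq] at h1
    exact h1.symm
  have h1 := meas_ge_le_variance_div_sq hsum ht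
  have h2 : Var[∑ j ∈ J, fun ω : ℕ → ℝ => ψ j (ω j); PP] ≤ ∑ j ∈ J, ∫ x, (ψ j x) ^ 2 ∂lap := by
    rw [IndepFun.variance_sum hX hind]
    refine Finset.sum_le_sum fun j hj => ?_
    have h3 := variance_le_expectation_sq (hX j hj).1
    refine h3.trans (le_of_eq ?_)
    rw [← hE2 j hj]
    rfl
  have h4 : ∫ ω, (∑ j ∈ J, fun ω : ℕ → ℝ => ψ j (ω j)) ω ∂PP = ∑ j ∈ J, ∫ x, ψ j x ∂lap := by
    have h5 : ∀ ω : ℕ → ℝ, (∑ j ∈ J, fun ω : ℕ → ℝ => ψ j (ω j)) ω = ∑ j ∈ J, ψ j (ω j) :=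
      fun ω => Finset.sum_apply ω J _
    simp only [h5]
    rw [integral_finsetSum J fun j hj => (hX j hj).integrable (by norm_num)]
    exact Finset.sum_congr rfl hE
  rw [h4] at h1
  have h6 : {ω : ℕ → ℝ | t ≤ |∑ j ∈ J, (ψ j (ω j) - ∫ x, ψ j x ∂lap)|} =
      {ω : ℕ → ℝ | t ≤ |(∑ j ∈ J, fun ω : ℕ → ℝ => ψ j (ω j)) ω - ∑ j ∈ J, ∫ x, ψ j x ∂lap|} := by
    ext ω
    rw [Set.mem_ofPred_eq, Set.mem_ofPred_eq, Finset.sum_apply, Finset.sum_sub_distrib]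
  rw [h6]
  have h7 : 0 ≤ Var[∑ j ∈ J, fun ω : ℕ → ℝ => ψ j (ω j); PP] / t ^ 2 :=
    div_nonneg (variance_nonneg _ _) (sq_nonneg t)
  calc PP.real {ω : ℕ → ℝ | t ≤ |(∑ j ∈ J, fun ω : ℕ → ℝ => ψ j (ω j)) ω - ∑ j ∈ J, ∫ x, ψ j x ∂lap|}
      ≤ (ENNReal.ofReal (Var[∑ j ∈ J, fun ω : ℕ → ℝ => ψ j (ω j); PP] / t ^ 2)).toReal :=
        ENNReal.toReal_mono ENNReal.ofReal_ne_top h1
    _ = Var[∑ j ∈ J, fun ω : ℕ → ℝ => ψ j (ω j); PP] / t ^ 2 := ENNReal.toReal_ofReal h7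
    _ ≤ (∑ j ∈ J, ∫ x, (ψ j x) ^ 2 ∂lap) / t ^ 2 :=
        div_le_div_of_nonneg_right h2 (sq_nonneg t)

end Pool.Agent.H407.GP174
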