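import Pool.Agent.H174.GP.StE

/-!
# Persistence with a prescribed end value
-/

open MeasureTheory ProbabilityTheory Finset Filter Topology

namespace Pool.Agent.H407.GP174

open Pool.Agent.H174.GP

theorem gp_qx (h1 : S_QXa) (h2 : S_QXb) (h3 : S_flip) : S_QX := by
  intro θ s1 s2 C1 ε hθ hTh hs1 hs2 hC1 hε
  obtain ⟨ε1, hε1, hb⟩ := h2 θ s1 s2 C1 ε hθ hTh hs1 hs2 hC1 hε
  refine ⟨ε1, hε1, fun ε' hε' hε'1 => ?_⟩
  obtain ⟨η, hη, hη4, R, hR, c, hc, hb2⟩ := hb ε' hε' hε'1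
  obtain ⟨R1, hR1, R0, hR0, d0, ha⟩ := h1 s1 s2 C1 ε' η R c hs1 hs2 hC1 hε' hη hη4 hR hc
  obtain ⟨d1, hb3⟩ := hb2 R1 hR1
  refine ⟨R0, hR0, max d0 d1, fun d hd σ hσ hl hu t ht1 ht2 => ?_⟩
  have hd0 : d0 ≤ d := (le_max_left _ _).trans hd
  have hd1 : d1 ≤ d := (le_max_right _ _).trans hd
  have ht0 : (0 : ℝ) ≤ t := le_trans (by positivity) ht1
  have hB := hb3 d hd1 σ hσ hl hu t (by rw [abs_of_nonneg ht0]; exact ht2)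
  have hA := ha d hd0 σ hσ hl hu t ht1
  obtain ⟨F, hF⟩ : ∃ F : Set (ℕ → ℤ), F = {x | (∀ k ∈ Finset.Icc 1 d, k * (C1 * Real.sqrt d) ≤
      ∑ j ∈ Finset.Icc 1 d, ((min j k : ℕ) : ℝ) * (x j : ℝ)) ∧
      (∑ j ∈ Finset.Icc 1 d, (j : ℤ) * x j) = t ∧
      |((∑ j ∈ Finset.Icc 1 d, (j : ℤ) * |x j| : ℤ) : ℝ) - m1 d σ|
        ≤ Real.sqrt (ε' * Real.log d) * (d : ℝ) ^ (3 / 2 : ℝ)} := ⟨_, rfl⟩
  have hdep : DepI d F := by
    intro x x' hxx hx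
    rw [hF, Set.mem_ofPred_eq] at hx ⊢
    have e1 : ∀ k : ℕ, ∑ j ∈ Finset.Icc 1 d, ((min j k : ℕ) : ℝ) * (x' j : ℝ) =
        ∑ j ∈ Finset.Icc 1 d, ((min j k : ℕ) : ℝ) * (x j : ℝ) := fun k =>
      Finset.sum_congr rfl fun j hj => by rw [hxx j hj]
    have e2 : ∑ j ∈ Finset.Icc 1 d, (j : ℤ) * x' j = ∑ j ∈ Finset.Icc 1 d, (j : ℤ) * x j :=
      Finset.sum_congr rfl fun j hj => by rw [hxx j hj]
    have e3 : ∑ j ∈ Finset.Icc 1 d, (j : ℤ) * |x' j| = ∑ j ∈ Finset.Icc 1 d, (j : ℤ) * |x j| :=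
      Finset.sum_congr rfl fun j hj => by rw [hxx j hj]
    refine ⟨fun k hk => ?_, ?_, ?_⟩
    · rw [e1 k]
      exact hx.1 k hk
    · rw [e2]
      exact hx.2.1
    · rw [e3]
      exact hx.2.2
  have hfl := h3 (d / 3) d σ F hσ hdep
  have hsub : EQ d σ η C1 R c R1 ε' t ⊆ {p | (fun j => XT (d / 3) σ p j) ∈ F} := by
    intro p hp
    rw [Set.mem_ofPred_eq, hF]
    exact hA p hp
  have hle : (PP.prod PP).real (EQ d σ η C1 R c R1 ε' t) ≤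
      (PP.prod PP).real {p | (fun j => XT (d / 3) σ p j) ∈ F} := measureReal_mono hsub
  rw [hfl] at hle
  refine (hB.trans hle).trans (le_of_eq ?_)
  rw [hF]
  rfl

end Pool.Agent.H407.GP174
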